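import Pool.Agent.DQ1.Fin
import Pool.Agent.DQ1.Distr
import Pool.Agent.DQ1.LSub

/-! # `M₁` is properly contained in `M₂` in a generic extension of `L` -/

namespace Pool.Agent.Results.MP_c44038_lc.InnerModelsDiffer

open Pool.Agent.DQ1

universe u

theorem result :
    ((∀ x : ZFSet.{u}, IsL x) → ∀ p : ZFSet.{u}, CondC p → ∀ D : ℕ → Set ZFSet.{u},
      (∀ n, ∀ c ∈ D n, ∀ d, CondC d → EndExt d c → d ∈ D n) →
      (∀ n, ∀ c, CondC c → ∃ d ∈ D n, CondC d ∧ EndExt d c) →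
      ∃ q, CondC q ∧ EndExt q p ∧ ∀ n, q ∈ D n) ∧
    ∀ C : Set Ordinal.{u}, GenericC C → M1.{u} = {x | IsL x} ∧ M1.{u} ⊂ M2.{u} := by
  refine ⟨fun hL p hp D h1 h2 => distr hL hp D h1 h2, fun C hC => ?_⟩
  obtain ⟨h1, h2⟩ := models_differ' hC
  exact M1_eq_and_ssubset (fun x hx => h1 hx) (fun h => h2 fun x hx => h x hx)

end Pool.Agent.Results.MP_c44038_lc.InnerModelsDiffer
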